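import Pool.Agent.W711.HT.Stm

/-!
# Volume conjecture for highly twisted two-bridge links: the induction
-/

set_option autoImplicit false

namespace Pool.Agent.W711.HT

open Filter Finset Topology Metric
open scoped Real

theorem Rc_sub {ρ τ : ℝ} (hρ : 0 < ρ) (hτ : 0 < τ) {z : ℂ} (hz : z ∈ Rc ρ τ) :
    z ∈ Rc (3 * ρ) (3 * τ) := by
  obtain ⟨h1, h2⟩ := hz
  exact ⟨by linarith, by linarith⟩

/-- the induction on the list of twist regions -/
theorem main_ind {ρ τ κ c : ℝ} {s dl : ℂ → ℂ → ℂ} (hK : KD ρ τ κ c s dl)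
    {ε₀ C M : ℝ}
    (h0 : Good ρ τ κ ε₀ s 0 (fun _ _ => 1) (fun _ => 0))
    (h1 : ∀ (t : ℝ) (X : ℕ → ℂ → ℂ) (F : ℂ → ℂ), (t = 0 ∨ t = 1) → Good ρ τ κ ε₀ s t X F →
      ∀ a : ℤ, M ≤ |(a : ℝ)| → ∃ (F' : ℂ → ℂ) (zs : ℂ → ℂ),
        Good ρ τ κ ε₀ s 1 (stp a X) F' ∧ ‖F' 0 - F 0 - s 0 0‖ ≤ C / |(a : ℝ)| ∧
        ∀ ψ' ∈ Rc (3 * ρ) (3 * τ), CPt C ρ τ a (zs ψ') ∧
          Complex.I * a * zs ψ' / (2 * π) + Complex.I + deriv F (zs ψ') +
            deriv (fun w => s w ψ') (zs ψ') = 0 ∧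
          F' ψ' = qq a F (zs ψ') + s (zs ψ') ψ' ∧
          HasDerivAt F' (deriv (fun w => s (zs ψ') w) ψ') ψ') :
    ∀ l : List ℤ, (∀ b ∈ l, M ≤ |(b : ℝ)|) → ∃ F : ℂ → ℂ,
      Good ρ τ κ ε₀ s (if l = [] then 0 else 1) (XX l) F ∧
      ‖F 0 - l.length * s 0 0‖ ≤ (l.map fun b : ℤ => C / |(b : ℝ)|).sum ∧
      ∀ ψ' ∈ Rc (3 * ρ) (3 * τ), ∃ ps : List ℂ, Crit s C ρ τ l ps ψ' (F ψ') (deriv F ψ') := by
  intro l
  induction l with
  | nil =>
    intro _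
    refine ⟨fun _ => 0, ?_, ?_, ?_⟩
    · simpa [XX] using h0
    · simp
    · intro ψ' _
      refine ⟨[], ?_⟩
      have : deriv (fun _ : ℂ => (0:ℂ)) ψ' = 0 := by simp
      rw [this]
      exact Crit.nil ψ'
  | cons a l ih =>
    intro hb
    obtain ⟨F, hG, hn, hcr⟩ := ih (fun b hb' => hb b (List.mem_cons_of_mem _ hb'))
    have ht : (if l = [] then (0:ℝ) else 1) = 0 ∨ (if l = [] then (0:ℝ) else 1) = 1 := by
      by_cases h : l = []
      · left; simp [h]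
      · right; simp [h]
    obtain ⟨F', zs, hG', hn', hcr'⟩ := h1 _ (XX l) F ht hG a (hb a (List.mem_cons_self ..))
    refine ⟨F', ?_, ?_, ?_⟩
    · simpa [XX] using hG'
    · have e : F' 0 - ((a :: l).length : ℂ) * s 0 0 =
        (F' 0 - F 0 - s 0 0) + (F 0 - l.length * s 0 0) := by
        rw [List.length_cons]
        push_cast
        ring
      rw [e]
      have e2 : ((a :: l).map fun b : ℤ => C / |(b : ℝ)|).sum =
          C / |(a : ℝ)| + (l.map fun b : ℤ => C / |(b : ℝ)|).sum := by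
        rw [List.map_cons, List.sum_cons]
      rw [e2]
      exact (norm_add_le _ _).trans (add_le_add hn' hn)
    · intro ψ' hψ'
      obtain ⟨hz, heq, hval, hder⟩ := hcr' ψ' hψ'
      obtain ⟨ps, hps⟩ := hcr (zs ψ') (Rc_sub hK.hρ.1 hK.hτ.1 hz.mem)
      refine ⟨zs ψ' :: ps, ?_⟩
      have := Crit.cons a l (zs ψ') ps ψ' (F (zs ψ')) (deriv F (zs ψ')) hps hz heq
      rw [hder.deriv, hval]
      simpa [qq] using this

theorem main_of_step : S_KER → S_STEP → S_MAIN := by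
  rintro ⟨ρ, τ, κ, c, s, dl, hK⟩ hS
  obtain ⟨ε₀, C, M, hε, hC, hM, h0, h1, h2⟩ := hS ρ τ κ c s dl hK
  refine ⟨ρ, τ, κ, c, s, dl, hK, C, M, hC, hM, ?_⟩
  intro a l hl ha hb
  obtain ⟨F, hG, hn, hcr⟩ := main_ind hK h0 h1 l hb
  rw [if_neg hl] at hG
  obtain ⟨z, hz, heq, hval, hlim⟩ := h2 (XX l) F hG a ha
  obtain ⟨ps, hps⟩ := hcr z (Rc_sub hK.hρ.1 hK.hτ.1 hz.mem)
  refine ⟨z, ps, F z, deriv F z, hps, hz, heq, ?_, ?_⟩
  · simpa [JJ, qq] using hlim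
  · have e : Complex.I * a * z ^ 2 / (4 * π) + Complex.I * z + F z - l.length * s 0 0 =
        (qq a F z - F 0) + (F 0 - l.length * s 0 0) := by
      simp only [qq]
      ring
    rw [e]
    have e2 : ((l.map fun b => C / |(b : ℝ)|).sum : ℝ) =
        (l.map fun b : ℤ => C / |(b : ℝ)|).sum := by
      congr 1
      show List.map _ (List.flatMap (fun a : ℤ => [(a : ℝ)]) l) = _
      clear hcr hps hn hG hb hl e hlim
      induction l with
      | nil => rfl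
      | cons a l ih => simp [List.flatMap_cons, ih]
    rw [e2]
    exact (norm_add_le _ _).trans (add_le_add hval hn)

end Pool.Agent.W711.HT
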