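import Pool.Agent.W711.HT.Stm2

/-!
# Volume conjecture for highly twisted two-bridge links: splitting of the path
-/

set_option autoImplicit false

namespace Pool.Agent.W711.HT

open Filter Finset Topology Metric
open scoped Real

theorem sq_norm_cos_add (x y : ℝ) :
    ‖Complex.cos (x + y * Complex.I)‖ ^ 2 = Real.cos x ^ 2 + Real.sinh y ^ 2 := by
  have e : Complex.cos (x + y * Complex.I) =
      ((Real.cos x * Real.cosh y : ℝ) : ℂ) + ((-(Real.sin x * Real.sinh y) : ℝ) : ℂ) *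
        Complex.I := by
    rw [Complex.cos_add_mul_I]
    push_cast
    ring
  rw [e, Complex.sq_norm, Complex.normSq_add_mul_I]
  have h1 := Real.sin_sq_add_cos_sq x
  have h2 := Real.cosh_sq y
  have h3 : Real.sin x ^ 2 = 1 - Real.cos x ^ 2 := by linarith
  rw [mul_pow, neg_sq, mul_pow, h2, h3]
  ring

theorem norm_sin_le (x y : ℝ) (hy : |y| ≤ 1) :
    ‖Complex.sin (x + y * Complex.I)‖ ≤ Real.exp 1 := by
  have e : Complex.sin (x + y * Complex.I) =
      ((Real.sin x * Real.cosh y : ℝ) : ℂ) + ((Real.cos x * Real.sinh y : ℝ) : ℂ) *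
        Complex.I := by
    rw [Complex.sin_add_mul_I]
    push_cast
    ring
  have h : ‖Complex.sin (x + y * Complex.I)‖ ^ 2 ≤ Real.cosh y ^ 2 := by
    rw [e, Complex.sq_norm, Complex.normSq_add_mul_I]
    have h1 := Real.sin_sq_add_cos_sq x
    have h2 := Real.cosh_sq y
    have h3 : Real.cos x ^ 2 = 1 - Real.sin x ^ 2 := by linarith
    rw [mul_pow, mul_pow, h2, h3]
    nlinarith [Real.sin_sq_le_one x]
  have h4 : ‖Complex.sin (x + y * Complex.I)‖ ≤ Real.cosh y :=
    (pow_le_pow_iff_left₀ (norm_nonneg _) (Real.cosh_pos y).le two_ne_zero).1 h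
  refine h4.trans ?_
  rw [Real.cosh_eq]
  have h5 : Real.exp y ≤ Real.exp 1 := Real.exp_le_exp.2 ((le_abs_self y).trans hy)
  have h6 : Real.exp (-y) ≤ Real.exp 1 := Real.exp_le_exp.2 ((neg_le_abs y).trans hy)
  linarith

theorem norm_Ea_le (a : ℤ) {N : ℕ} (hN : 1 ≤ N) {x y : ℝ} (hx : |x| ≤ π) (hy : |y| ≤ 1 / N) :
    ‖Ea a N (x + y * Complex.I)‖ ≤ Real.exp (|(a : ℝ)| / 2) := by
  have hN0 : (0:ℝ) < N := by exact_mod_cast hN
  have e : Complex.I * a * N * ((x : ℂ) + y * Complex.I) ^ 2 / (4 * π) =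
      ((-(a * N * x * y) / (2 * π) : ℝ) : ℂ) +
        ((a * N * (x ^ 2 - y ^ 2) / (4 * π) : ℝ) : ℂ) * Complex.I := by
    have hpi : (π : ℂ) ≠ 0 := by exact_mod_cast Real.pi_ne_zero
    push_cast
    field_simp
    linear_combination (a * N * (4 * (x : ℂ) * y + 2 * Complex.I * y ^ 2)) * Complex.I_sq
  rw [Ea, e, Complex.norm_exp]
  refine Real.exp_le_exp.2 ?_
  have e2 : (((-(a * N * x * y) / (2 * π) : ℝ) : ℂ) +
        ((a * N * (x ^ 2 - y ^ 2) / (4 * π) : ℝ) : ℂ) * Complex.I).re =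
        -(a * N * x * y) / (2 * π) := by
    simp only [Complex.add_re, Complex.mul_re, Complex.ofReal_re, Complex.ofReal_im,
      Complex.I_re, Complex.I_im, mul_zero, zero_mul, sub_zero, add_zero]
  rw [e2]
  refine (le_abs_self _).trans ?_
  rw [abs_div, abs_neg, abs_mul, abs_mul, abs_mul, abs_of_pos (mul_pos two_pos Real.pi_pos),
    abs_of_pos hN0, div_le_div_iff₀ (mul_pos two_pos Real.pi_pos) two_pos]
  have h1 : (N : ℝ) * |y| ≤ 1 := by
    calc (N : ℝ) * |y| ≤ N * (1 / N) := by gcongr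
      _ = 1 := by field_simp
  have h2 : |(a : ℝ)| * (N * |y|) * |x| ≤ |(a : ℝ)| * 1 * π := by gcongr
  nlinarith [h2]

theorem sq_sinh_half : (1 / 4 : ℝ) ≤ Real.sinh (1 / 2) ^ 2 := by
  have h : (1 / 2 : ℝ) ≤ Real.sinh (1 / 2) := Real.self_le_sinh_iff.2 (by norm_num)
  nlinarith

theorem cos_arg (N : ℕ) (x y : ℝ) : ((N : ℂ) * ((x : ℂ) + y * Complex.I + π) / 2) =
    ((N * (x + π) / 2 : ℝ) : ℂ) + ((N * y / 2 : ℝ) : ℂ) * Complex.I := by
  push_cast
  ring

theorem norm_kr_le (N : ℕ) (x y : ℝ) (hy : |y| ≤ 1)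
    (h : 1 / 4 ≤ Real.cos (N * (x + π) / 2) ^ 2 + Real.sinh (N * y / 2) ^ 2) :
    ‖kr N (x + y * Complex.I)‖ ≤ 2 * Real.exp 1 := by
  rw [kr, cos_arg, norm_div, norm_mul, norm_mul, norm_pow, sq_norm_cos_add]
  rw [div_le_iff₀ (by simp; linarith)]
  have h1 := norm_sin_le x y hy
  have h2 : ‖(2:ℂ)‖ = 2 := by simp
  have h4 : ‖(4:ℂ)‖ = 4 := by simp
  rw [h2, h4]
  have h5 := Real.exp_pos 1
  nlinarith [mul_le_mul_of_nonneg_left h h5.le]

theorem norm_kr_hor {N : ℕ} (hN : 1 ≤ N) (x : ℝ) :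
    ‖kr N (x + (1 / N : ℝ) * Complex.I)‖ ≤ 2 * Real.exp 1 := by
  have hN1 : (1:ℝ) ≤ N := by exact_mod_cast hN
  have hN0 : (0:ℝ) < N := by linarith
  refine norm_kr_le N x (1 / N) ?_ ?_
  · rw [abs_of_pos (by positivity), div_le_one hN0]
    exact hN1
  · have : (N : ℝ) * (1 / N) / 2 = 1 / 2 := by field_simp
    rw [this]
    nlinarith [sq_sinh_half, sq_nonneg (Real.cos (N * (x + π) / 2))]

theorem norm_kr_left {N : ℕ} (y : ℝ) (hy : |y| ≤ 1) :
    ‖kr N (-π + y * Complex.I)‖ ≤ 2 * Real.exp 1 := by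
  have := norm_kr_le N (-π) y hy (by
    have : (N : ℝ) * (-π + π) / 2 = 0 := by ring
    rw [this, Real.cos_zero]
    nlinarith [sq_nonneg (Real.sinh (N * y / 2))])
  simpa using this

theorem norm_kr_right {N : ℕ} (y : ℝ) (hy : |y| ≤ 1) :
    ‖kr N (π + y * Complex.I)‖ ≤ 2 * Real.exp 1 := by
  refine norm_kr_le N π y hy ?_
  have : (N : ℝ) * (π + π) / 2 = N * π := by ring
  rw [this]
  have h : Real.cos (N * π) ^ 2 = 1 := by
    have h1 := Real.sin_sq_add_cos_sq (N * π)
    rw [Real.sin_nat_mul_pi] at h1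
    linarith
  rw [h]
  nlinarith [sq_nonneg (Real.sinh (N * y / 2))]

/-- the integrand is continuous on the horizontal part -/
theorem cont_hor {N : ℕ} (hN : 1 ≤ N) (a : ℤ) {f : ℂ → ℂ} (hf : Continuous f) :
    Continuous fun x : ℝ => Ea a N (x + (1 / N : ℝ) * Complex.I) *
      f (x + (1 / N : ℝ) * Complex.I) * kr N (x + (1 / N : ℝ) * Complex.I) := by
  have hN1 : (1:ℝ) ≤ N := by exact_mod_cast hN
  have hN0 : (0:ℝ) < N := by linarith
  have hc : Continuous fun x : ℝ => (x : ℂ) + (1 / N : ℝ) * Complex.I := by fun_prop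
  refine (Continuous.mul ?_ (hf.comp hc)).mul ?_
  · unfold Ea
    fun_prop
  · unfold kr
    refine Continuous.div (by fun_prop) (by fun_prop) ?_
    intro x h0
    have h1 : Complex.cos (N * ((x : ℂ) + (1 / N : ℝ) * Complex.I + π) / 2) = 0 := by
      have := (mul_eq_zero.1 h0).resolve_left (by norm_num)
      exact pow_eq_zero_iff (two_ne_zero) |>.1 this
    have h2 := sq_norm_cos_add (N * (x + π) / 2) (N * (1 / N) / 2)
    rw [← cos_arg, h1] at h2
    have : (N : ℝ) * (1 / N) / 2 = 1 / 2 := by field_simp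
    rw [this] at h2
    simp only [norm_zero, ne_eq, OfNat.ofNat_ne_zero, not_false_eq_true, zero_pow] at h2
    nlinarith [sq_sinh_half, sq_nonneg (Real.cos (N * (x + π) / 2))]

theorem upb : S_UPB := by
  intro a
  set K : ℝ := Real.exp (|(a : ℝ)| / 2) * (2 * Real.exp 1) with hK
  have hK0 : 0 < K := by positivity
  refine ⟨K * (2 + 2 * π), by positivity, ?_⟩
  intro ρ hρ hρπ
  filter_upwards [eventually_ge_atTop 1] with N hN
  intro f B hf
  have hN1 : (1:ℝ) ≤ N := by exact_mod_cast hN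
  have hN0 : (0:ℝ) < N := by linarith
  have hh0 : (0:ℝ) < 1 / N := by positivity
  have hh1 : (1:ℝ) / N ≤ 1 := by rw [div_le_one hN0]; exact hN1
  have hpi := Real.pi_pos
  -- the bound of the product
  have key : ∀ (u v w B : ℝ) (U V W : ℂ), ‖U‖ ≤ Real.exp (|(a : ℝ)| / 2) → ‖V‖ ≤ B →
      ‖W‖ ≤ 2 * Real.exp 1 → ‖U * V * W‖ ≤ K * B := by
    intro u v w B U V W hU hV hW
    have hB : 0 ≤ B := (norm_nonneg _).trans hV
    rw [norm_mul, norm_mul]
    calc ‖U‖ * ‖V‖ * ‖W‖ ≤ Real.exp (|(a : ℝ)| / 2) * B * (2 * Real.exp 1) := by gcongr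
      _ = K * B := by rw [hK]; ring
  have hor : ∀ (x : ℝ) (B : ℝ), |x| ≤ π → ‖f (x + (1 / N : ℝ) * Complex.I)‖ ≤ B →
      ‖Ea a N (x + (1 / N : ℝ) * Complex.I) *
        f (x + (1 / N : ℝ) * Complex.I) * kr N (x + (1 / N : ℝ) * Complex.I)‖ ≤ K * B := by
    intro x B hx hB
    refine key 0 0 0 B _ _ _ (norm_Ea_le a hN hx ?_) hB (norm_kr_hor hN x)
    rw [abs_of_pos hh0]
  have hcont := cont_hor hN a hf
  constructor
  · intro hB
    have hB0 : 0 ≤ B := (norm_nonneg _).trans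
      (hB π 0 (by rwa [abs_of_pos hpi]) (by rw [abs_of_pos hpi]) (by simp))
    have hint : ∀ p q : ℝ, IntervalIntegrable (fun x : ℝ => Ea a N (x + (1 / N : ℝ) * Complex.I) *
      f (x + (1 / N : ℝ) * Complex.I) * kr N (x + (1 / N : ℝ) * Complex.I))
      MeasureTheory.volume p q := fun p q => hcont.intervalIntegrable p q
    have e : (upp (1 / N) fun ψ => Ea a N ψ * f ψ * kr N ψ) -
        ∫ x in (-ρ)..ρ, Ea a N (x + (1 / N : ℝ) * Complex.I) *
          f (x + (1 / N : ℝ) * Complex.I) * kr N (x + (1 / N : ℝ) * Complex.I) =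
        Complex.I * (∫ y in (0:ℝ)..(1 / N), Ea a N (-π + y * Complex.I) *
          f (-π + y * Complex.I) * kr N (-π + y * Complex.I)) +
        ((∫ x in (-π)..(-ρ), Ea a N (x + (1 / N : ℝ) * Complex.I) *
          f (x + (1 / N : ℝ) * Complex.I) * kr N (x + (1 / N : ℝ) * Complex.I)) +
        (∫ x in (ρ)..π, Ea a N (x + (1 / N : ℝ) * Complex.I) *
          f (x + (1 / N : ℝ) * Complex.I) * kr N (x + (1 / N : ℝ) * Complex.I))) -
        Complex.I * (∫ y in (0:ℝ)..(1 / N), Ea a N (π + y * Complex.I) *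
          f (π + y * Complex.I) * kr N (π + y * Complex.I)) := by
      unfold upp
      rw [← intervalIntegral.integral_add_adjacent_intervals (hint (-π) (-ρ)) (hint (-ρ) π),
        ← intervalIntegral.integral_add_adjacent_intervals (hint (-ρ) ρ) (hint ρ π)]
      ring
    rw [e]
    have v1 : ‖∫ y in (0:ℝ)..(1 / N), Ea a N (-π + y * Complex.I) *
          f (-π + y * Complex.I) * kr N (-π + y * Complex.I)‖ ≤ K * B * |(1 / N : ℝ) - 0| := by
      refine intervalIntegral.norm_integral_le_of_norm_le_const ?_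
      intro y hy
      rw [Set.uIoc_of_le hh0.le] at hy
      have hy1 : |y| ≤ 1 / N := by rw [abs_of_pos hy.1]; exact hy.2
      refine key 0 0 0 B _ _ _ ?_ ?_ (norm_kr_left y (hy1.trans hh1))
      · have := norm_Ea_le a hN (x := -π) (y := y) (by rw [abs_neg, abs_of_pos hpi]) hy1
        simpa using this
      · have := hB (-π) y (by rwa [abs_neg, abs_of_pos hpi]) (by rw [abs_neg, abs_of_pos hpi]) hy1
        simpa using this
    have v2 : ‖∫ y in (0:ℝ)..(1 / N), Ea a N (π + y * Complex.I) *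
          f (π + y * Complex.I) * kr N (π + y * Complex.I)‖ ≤ K * B * |(1 / N : ℝ) - 0| := by
      refine intervalIntegral.norm_integral_le_of_norm_le_const ?_
      intro y hy
      rw [Set.uIoc_of_le hh0.le] at hy
      have hy1 : |y| ≤ 1 / N := by rw [abs_of_pos hy.1]; exact hy.2
      refine key 0 0 0 B _ _ _ ?_ ?_ (norm_kr_right y (hy1.trans hh1))
      · exact norm_Ea_le a hN (x := π) (y := y) (by rw [abs_of_pos hpi]) hy1
      · exact hB π y (by rwa [abs_of_pos hpi]) (by rw [abs_of_pos hpi]) hy1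
    have h1 : ‖∫ x in (-π)..(-ρ), Ea a N (x + (1 / N : ℝ) * Complex.I) *
          f (x + (1 / N : ℝ) * Complex.I) * kr N (x + (1 / N : ℝ) * Complex.I)‖ ≤
          K * B * |-ρ - -π| := by
      refine intervalIntegral.norm_integral_le_of_norm_le_const ?_
      intro x hx
      rw [Set.uIoc_of_le (by linarith)] at hx
      have hx0 : x < 0 := by linarith [hx.2]
      have hx1 : |x| = -x := abs_of_neg hx0
      refine hor x B (by rw [hx1]; linarith [hx.1]) ?_
      exact hB x (1 / N) (by rw [hx1]; linarith [hx.2]) (by rw [hx1]; linarith [hx.1])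
        (by rw [abs_of_pos hh0])
    have h2 : ‖∫ x in ρ..π, Ea a N (x + (1 / N : ℝ) * Complex.I) *
          f (x + (1 / N : ℝ) * Complex.I) * kr N (x + (1 / N : ℝ) * Complex.I)‖ ≤
          K * B * |π - ρ| := by
      refine intervalIntegral.norm_integral_le_of_norm_le_const ?_
      intro x hx
      rw [Set.uIoc_of_le (by linarith)] at hx
      have hx0 : 0 < x := by linarith [hx.1]
      have hx1 : |x| = x := abs_of_pos hx0
      refine hor x B (by rw [hx1]; linarith [hx.2]) ?_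
      exact hB x (1 / N) (by rw [hx1]; linarith [hx.1]) (by rw [hx1]; linarith [hx.2])
        (by rw [abs_of_pos hh0])
    have hI : ∀ z : ℂ, ‖Complex.I * z‖ = ‖z‖ := by intro z; rw [norm_mul, Complex.norm_I, one_mul]
    refine (norm_sub_le _ _).trans ?_
    have t1 := norm_add_le (Complex.I * (∫ y in (0:ℝ)..(1 / N), Ea a N (-π + y * Complex.I) *
          f (-π + y * Complex.I) * kr N (-π + y * Complex.I)))
        ((∫ x in (-π)..(-ρ), Ea a N (x + (1 / N : ℝ) * Complex.I) *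
          f (x + (1 / N : ℝ) * Complex.I) * kr N (x + (1 / N : ℝ) * Complex.I)) +
        (∫ x in (ρ)..π, Ea a N (x + (1 / N : ℝ) * Complex.I) *
          f (x + (1 / N : ℝ) * Complex.I) * kr N (x + (1 / N : ℝ) * Complex.I)))
    have t2 := norm_add_le (∫ x in (-π)..(-ρ), Ea a N (x + (1 / N : ℝ) * Complex.I) *
          f (x + (1 / N : ℝ) * Complex.I) * kr N (x + (1 / N : ℝ) * Complex.I))
        (∫ x in (ρ)..π, Ea a N (x + (1 / N : ℝ) * Complex.I) *
          f (x + (1 / N : ℝ) * Complex.I) * kr N (x + (1 / N : ℝ) * Complex.I))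
    rw [hI] at t1
    rw [hI]
    rw [sub_zero, abs_of_pos hh0] at v1 v2
    rw [abs_of_nonneg (by linarith)] at h1 h2
    have hKB : 0 ≤ K * B := by positivity
    have m1 : K * B * (1 / N) ≤ K * B * 1 := by gcongr
    nlinarith [mul_nonneg hKB hρ.le]
  · intro hB
    have hB0 : 0 ≤ B := (norm_nonneg _).trans
      (hB 0 0 (by simpa using hρ.le) (by simp))
    have h1 : ‖∫ x in (-ρ)..ρ, Ea a N (x + (1 / N : ℝ) * Complex.I) *
          f (x + (1 / N : ℝ) * Complex.I) * kr N (x + (1 / N : ℝ) * Complex.I)‖ ≤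
          K * B * |ρ - -ρ| := by
      refine intervalIntegral.norm_integral_le_of_norm_le_const ?_
      intro x hx
      rw [Set.uIoc_of_le (by linarith)] at hx
      have hx1 : |x| ≤ ρ := abs_le.2 ⟨hx.1.le, hx.2⟩
      refine hor x B (hx1.trans hρπ) ?_
      exact hB x (1 / N) hx1 (by rw [abs_of_pos hh0])
    refine h1.trans ?_
    rw [abs_of_nonneg (by linarith)]
    have hKB : 0 ≤ K * B := by positivity
    nlinarith [mul_le_mul_of_nonneg_left hρπ hKB]

end Pool.Agent.W711.HT
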